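import Pool.Agent.W538.Sub.Metric

/-! The manifold of unit decomposable tensors in `ℝ³ ⊗ ℝ³ ⊗ ℝ³`. -/

open Bundle Bornology Set MeasureTheory Manifold Filter Topology
open scoped ENNReal ContDiff Manifold NNReal

noncomputable section

namespace Pool.Agent.W538.TwoNum

open Pool.Agent.W538.Sub

/-- three-space -/
abbrev E3 := EuclideanSpace ℝ (Fin 3)

/-- six-space -/
abbrev E6 := EuclideanSpace ℝ (Fin 6)

/-- the space of `3 × 3 × 3` arrays -/
abbrev F27 := EuclideanSpace ℝ (Fin 3 × Fin 3 × Fin 3)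

/-- the decomposable tensor `x ⊗ y ⊗ z` -/
def tens (x y z : E3) : F27 := WithLp.toLp 2 fun p => x p.1 * y p.2.1 * z p.2.2

@[simp] lemma tens_apply (x y z : E3) (p : Fin 3 × Fin 3 × Fin 3) :
    tens x y z p = x p.1 * y p.2.1 * z p.2.2 := rfl

lemma sum_tens (f g h : Fin 3 → ℝ) :
    ∑ p : Fin 3 × Fin 3 × Fin 3, f p.1 * g p.2.1 * h p.2.2 =
      (∑ i, f i) * (∑ j, g j) * (∑ k, h k) := by
  simp only [Fintype.sum_prod_type]
  rw [Finset.sum_mul_sum, Finset.sum_mul]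
  refine Finset.sum_congr rfl fun i _ => ?_
  rw [Finset.sum_mul]
  refine Finset.sum_congr rfl fun j _ => ?_
  rw [Finset.mul_sum]

lemma inner_tens (x y z x' y' z' : E3) :
    inner ℝ (tens x y z) (tens x' y' z') = inner ℝ x x' * inner ℝ y y' * inner ℝ z z' := by
  simp only [PiLp.inner_apply, RCLike.inner_apply, conj_trivial, tens_apply]
  rw [← sum_tens]
  refine Finset.sum_congr rfl fun p _ => ?_
  ring

lemma norm_tens (x y z : E3) : ‖tens x y z‖ = ‖x‖ * ‖y‖ * ‖z‖ := by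
  have h := inner_tens x y z x y z
  rw [real_inner_self_eq_norm_sq, real_inner_self_eq_norm_sq, real_inner_self_eq_norm_sq,
    real_inner_self_eq_norm_sq] at h
  have h2 : ‖tens x y z‖ ^ 2 = (‖x‖ * ‖y‖ * ‖z‖) ^ 2 := by rw [h]; ring
  exact (pow_left_inj₀ (norm_nonneg _) (by positivity) (by norm_num)).1 h2

lemma smul_tens (a b c : ℝ) (x y z : E3) :
    tens (a • x) (b • y) (c • z) = (a * b * c) • tens x y z := by
  ext p
  simp only [tens_apply, PiLp.smul_apply, smul_eq_mul]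
  ring

/-- the sign -/
def sgn (b : Bool) : ℝ := if b then 1 else -1

lemma sgn_ne (b : Bool) : sgn b ≠ 0 := by cases b <;> simp [sgn]

lemma abs_sgn (b : Bool) : |sgn b| = 1 := by cases b <;> simp [sgn]

lemma sgn_mul_self (b : Bool) : sgn b * sgn b = 1 := by cases b <;> simp [sgn]

/-- the identification of the parameter space with `ℝ⁶` -/
def L : ((Fin 2 → ℝ) × (Fin 2 → ℝ) × (Fin 2 → ℝ)) ≃L[ℝ] E6 :=
  ContinuousLinearEquiv.ofFinrankEq (by simp)

/-- the vector with `i`-th coordinate `1` and other coordinates `u` -/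
def hat (i : Fin 3) (u : Fin 2 → ℝ) : E3 := WithLp.toLp 2 (Fin.insertNth (α := fun _ => ℝ) i 1 u)

@[simp] lemma hat_same (i : Fin 3) (u : Fin 2 → ℝ) : hat i u i = 1 := by
  simp [hat]

@[simp] lemma hat_succ (i : Fin 3) (u : Fin 2 → ℝ) (a : Fin 2) : hat i u (i.succAbove a) = u a := by
  simp [hat]

lemma hat_ne (i : Fin 3) (u : Fin 2 → ℝ) : hat i u ≠ 0 := by
  intro h
  have := congrArg (fun v : E3 => v i) h
  simp at this

lemma norm_hat_ne (i : Fin 3) (u : Fin 2 → ℝ) : ‖hat i u‖ ≠ 0 := norm_ne_zero_iff.2 (hat_ne i u)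

lemma hat_eq (i : Fin 3) (x : E3) (hx : x i ≠ 0) :
    hat i (fun a => x (i.succAbove a) / x i) = (x i)⁻¹ • x := by
  ext m
  refine Fin.succAboveCases i ?_ (fun a => ?_) m
  · simp [hx]
  · simp [div_eq_inv_mul]

lemma contDiff_hat (i : Fin 3) : ContDiff ℝ ∞ (hat i) := by
  rw [contDiff_euclidean]
  intro m
  refine Fin.succAboveCases i ?_ (fun a => ?_) m
  · simp only [hat_same]; fun_prop
  · simp only [hat_succ]; fun_prop

lemma contDiff_tens {W : Type} [NormedAddCommGroup W] [NormedSpace ℝ W] {f g h : W → E3}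
    (hf : ContDiff ℝ ∞ f) (hg : ContDiff ℝ ∞ g) (hh : ContDiff ℝ ∞ h) :
    ContDiff ℝ ∞ (fun w => tens (f w) (g w) (h w)) := by
  rw [contDiff_euclidean]
  intro p
  simp only [tens_apply]
  rw [contDiff_euclidean] at hf hg hh
  exact ((hf _).mul (hg _)).mul (hh _)

/-- the set of unit decomposable tensors -/
def SS : Set F27 := {T | ∃ x y z : E3, ‖x‖ = 1 ∧ ‖y‖ = 1 ∧ ‖z‖ = 1 ∧ T = tens x y z}

/-- the coefficient of the parametrisation -/
def coef (c : Fin 3 × Fin 3 × Fin 3 × Bool) (w : (Fin 2 → ℝ) × (Fin 2 → ℝ) × (Fin 2 → ℝ)) : ℝ :=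
  sgn c.2.2.2 * ‖hat c.1 w.1‖⁻¹ * ‖hat c.2.1 w.2.1‖⁻¹ * ‖hat c.2.2.1 w.2.2‖⁻¹

/-- the parametrisations -/
def psi0 (c : Fin 3 × Fin 3 × Fin 3 × Bool) (w : (Fin 2 → ℝ) × (Fin 2 → ℝ) × (Fin 2 → ℝ)) :
    F27 :=
  coef c w • tens (hat c.1 w.1) (hat c.2.1 w.2.1) (hat c.2.2.1 w.2.2)

/-- the charts -/
def phi0 (c : Fin 3 × Fin 3 × Fin 3 × Bool) (T : F27) :
    (Fin 2 → ℝ) × (Fin 2 → ℝ) × (Fin 2 → ℝ) :=
  (fun a => T (c.1.succAbove a, c.2.1, c.2.2.1) / T (c.1, c.2.1, c.2.2.1),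
   fun a => T (c.1, c.2.1.succAbove a, c.2.2.1) / T (c.1, c.2.1, c.2.2.1),
   fun a => T (c.1, c.2.1, c.2.2.1.succAbove a) / T (c.1, c.2.1, c.2.2.1))

lemma coef_ne (c : Fin 3 × Fin 3 × Fin 3 × Bool)
    (w : (Fin 2 → ℝ) × (Fin 2 → ℝ) × (Fin 2 → ℝ)) : coef c w ≠ 0 := by
  unfold coef
  have := sgn_ne c.2.2.2
  have h1 := norm_hat_ne c.1 w.1
  have h2 := norm_hat_ne c.2.1 w.2.1
  have h3 := norm_hat_ne c.2.2.1 w.2.2
  positivity

lemma psi0_mem (c : Fin 3 × Fin 3 × Fin 3 × Bool)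
    (w : (Fin 2 → ℝ) × (Fin 2 → ℝ) × (Fin 2 → ℝ)) : psi0 c w ∈ SS := by
  refine ⟨(sgn c.2.2.2 * ‖hat c.1 w.1‖⁻¹) • hat c.1 w.1, ‖hat c.2.1 w.2.1‖⁻¹ • hat c.2.1 w.2.1,
    ‖hat c.2.2.1 w.2.2‖⁻¹ • hat c.2.2.1 w.2.2, ?_, ?_, ?_, ?_⟩
  · rw [norm_smul, Real.norm_eq_abs, abs_mul, abs_sgn, one_mul, abs_inv, abs_norm]
    exact inv_mul_cancel₀ (norm_hat_ne _ _)
  · rw [norm_smul, norm_inv, norm_norm]
    exact inv_mul_cancel₀ (norm_hat_ne _ _)
  · rw [norm_smul, norm_inv, norm_norm]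
    exact inv_mul_cancel₀ (norm_hat_ne _ _)
  · rw [smul_tens]; rfl

lemma psi0_val (c : Fin 3 × Fin 3 × Fin 3 × Bool)
    (w : (Fin 2 → ℝ) × (Fin 2 → ℝ) × (Fin 2 → ℝ)) :
    psi0 c w (c.1, c.2.1, c.2.2.1) = coef c w := by
  simp [psi0]

lemma phi0_psi0 (c : Fin 3 × Fin 3 × Fin 3 × Bool)
    (w : (Fin 2 → ℝ) × (Fin 2 → ℝ) × (Fin 2 → ℝ)) : phi0 c (psi0 c w) = w := by
  have h := coef_ne c w
  unfold phi0
  rw [psi0_val]
  refine Prod.ext ?_ (Prod.ext ?_ ?_) <;> funext a <;> simp [psi0] <;> field_simp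

lemma psi0_phi0 (c : Fin 3 × Fin 3 × Fin 3 × Bool) (T : F27) (hT : T ∈ SS)
    (hc : 0 < sgn c.2.2.2 * T (c.1, c.2.1, c.2.2.1)) : psi0 c (phi0 c T) = T := by
  obtain ⟨x, y, z, hx, hy, hz, rfl⟩ := hT
  obtain ⟨i, j, k, b⟩ := c
  simp only [tens_apply] at hc
  have hxi : x i ≠ 0 := by rintro h; simp [h] at hc
  have hyj : y j ≠ 0 := by rintro h; simp [h] at hc
  have hzk : z k ≠ 0 := by rintro h; simp [h] at hc
  have h1 : (phi0 (i, j, k, b) (tens x y z)).1 = fun a => x (i.succAbove a) / x i := by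
    funext a; simp only [phi0, tens_apply]; field_simp
  have h2 : (phi0 (i, j, k, b) (tens x y z)).2.1 = fun a => y (j.succAbove a) / y j := by
    funext a; simp only [phi0, tens_apply]; field_simp
  have h3 : (phi0 (i, j, k, b) (tens x y z)).2.2 = fun a => z (k.succAbove a) / z k := by
    funext a; simp only [phi0, tens_apply]; field_simp
  simp only [psi0, coef, h1, h2, h3, hat_eq i x hxi, hat_eq j y hyj, hat_eq k z hzk, norm_smul,
    hx, hy, hz, mul_one, norm_inv, inv_inv, smul_tens, smul_smul, Real.norm_eq_abs]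
  have h4 : sgn b * |x i| * |y j| * |z k| * ((x i)⁻¹ * (y j)⁻¹ * (z k)⁻¹) = 1 := by
    have h5 : sgn b * |x i| * |y j| * |z k| = x i * y j * z k := by
      have h6 : |x i| * |y j| * |z k| = |x i * y j * z k| := by rw [abs_mul, abs_mul]
      have h7 : |x i * y j * z k| = sgn b * (x i * y j * z k) := by
        rw [← abs_of_pos hc, abs_mul (sgn b), abs_sgn, one_mul]
      calc sgn b * |x i| * |y j| * |z k| = sgn b * (|x i| * |y j| * |z k|) := by ring
        _ = (sgn b * sgn b) * (x i * y j * z k) := by rw [h6, h7]; ring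
        _ = _ := by rw [sgn_mul_self, one_mul]
    rw [h5]
    field_simp
  rw [h4, one_smul]

/-- the chart data of the manifold of unit decomposable tensors -/
def dd : CData F27 E6 where
  S := SS
  ι := Fin 3 × Fin 3 × Fin 3 × Bool
  U c := {T | 0 < sgn c.2.2.2 * T (c.1, c.2.1, c.2.2.1)}
  isOpen_U c := by
    apply isOpen_lt continuous_const
    fun_prop
  phi c T := L (phi0 c T)
  psi c v := psi0 c (L.symm v)
  smooth_phi c T hT := by
    have h0 : T (c.1, c.2.1, c.2.2.1) ≠ 0 := by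
      intro h
      simp [h] at hT
    apply L.contDiff.contDiffAt.comp
    unfold phi0
    have hp : ∀ p, ContDiffAt ℝ ∞ (fun T : F27 => T p) T := fun p =>
      (EuclideanSpace.proj p : F27 →L[ℝ] ℝ).contDiff.contDiffAt
    refine ContDiffAt.prodMk ?_ (ContDiffAt.prodMk ?_ ?_) <;>
    · rw [contDiffAt_pi]
      intro a
      exact ContDiffAt.div (hp _) (hp _) h0
  smooth_psi c := by
    have h1 : ContDiff ℝ ∞ (fun v : E6 => hat c.1 (L.symm v).1) :=
      (contDiff_hat _).comp (contDiff_fst.comp L.symm.contDiff)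
    have h2 : ContDiff ℝ ∞ (fun v : E6 => hat c.2.1 (L.symm v).2.1) :=
      (contDiff_hat _).comp ((contDiff_fst.comp contDiff_snd).comp L.symm.contDiff)
    have h3 : ContDiff ℝ ∞ (fun v : E6 => hat c.2.2.1 (L.symm v).2.2) :=
      (contDiff_hat _).comp ((contDiff_snd.comp contDiff_snd).comp L.symm.contDiff)
    have n1 : ContDiff ℝ ∞ (fun v : E6 => ‖hat c.1 (L.symm v).1‖⁻¹) :=
      (h1.norm ℝ fun v => hat_ne _ _).inv fun v => norm_hat_ne _ _
    have n2 : ContDiff ℝ ∞ (fun v : E6 => ‖hat c.2.1 (L.symm v).2.1‖⁻¹) :=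
      (h2.norm ℝ fun v => hat_ne _ _).inv fun v => norm_hat_ne _ _
    have n3 : ContDiff ℝ ∞ (fun v : E6 => ‖hat c.2.2.1 (L.symm v).2.2‖⁻¹) :=
      (h3.norm ℝ fun v => hat_ne _ _).inv fun v => norm_hat_ne _ _
    exact (((contDiff_const.mul n1).mul n2).mul n3).smul (contDiff_tens h1 h2 h3)
  psi_mem c v := psi0_mem c _
  psi_memU c v := by
    change 0 < sgn c.2.2.2 * psi0 c (L.symm v) (c.1, c.2.1, c.2.2.1)
    rw [psi0_val]
    unfold coef
    have h1 := norm_hat_ne c.1 (L.symm v).1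
    have h2 := norm_hat_ne c.2.1 (L.symm v).2.1
    have h3 := norm_hat_ne c.2.2.1 (L.symm v).2.2
    have h4 : sgn c.2.2.2 * (sgn c.2.2.2 * ‖hat c.1 (L.symm v).1‖⁻¹ *
        ‖hat c.2.1 (L.symm v).2.1‖⁻¹ * ‖hat c.2.2.1 (L.symm v).2.2‖⁻¹) =
        (sgn c.2.2.2 * sgn c.2.2.2) * (‖hat c.1 (L.symm v).1‖⁻¹ *
        ‖hat c.2.1 (L.symm v).2.1‖⁻¹ * ‖hat c.2.2.1 (L.symm v).2.2‖⁻¹) := by ring
    rw [h4, sgn_mul_self, one_mul]
    positivity
  phi_psi c v := by
    rw [phi0_psi0, ContinuousLinearEquiv.apply_symm_apply]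
  psi_phi c T hT hc := by
    rw [ContinuousLinearEquiv.symm_apply_apply]
    exact psi0_phi0 c T hT hc
  cover T hT := by
    obtain ⟨x, y, z, hx, hy, hz, rfl⟩ := hT
    have key : ∀ x : E3, ‖x‖ = 1 → ∃ i, x i ≠ 0 := by
      intro x hx
      by_contra h
      push Not at h
      have : x = 0 := by ext i; simp [h i]
      rw [this] at hx
      simp at hx
    obtain ⟨i, hi⟩ := key x hx
    obtain ⟨j, hj⟩ := key y hy
    obtain ⟨k, hk⟩ := key z hz
    have h0 : x i * y j * z k ≠ 0 := by positivity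
    rcases lt_or_gt_of_ne h0 with h | h
    · refine ⟨(i, j, k, false), ?_⟩
      change 0 < sgn false * (x i * y j * z k)
      simp only [sgn]
      simp
      exact h
    · refine ⟨(i, j, k, true), ?_⟩
      change 0 < sgn true * (x i * y j * z k)
      simp only [sgn]
      simp
      exact h

end Pool.Agent.W538.TwoNum
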