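import Pool.Agent.W538.TwoNum.Seg
import Pool.Agent.Helper381.Defs

/-! Topology, isometries and symmetries of the manifold of unit decomposable tensors. -/

open Bundle Bornology Set MeasureTheory Manifold Filter Topology
open scoped ENNReal ContDiff Manifold NNReal

noncomputable section

namespace Pool.Agent.W538.TwoNum

open Pool.Agent.W538.Sub Pool.Agent.Helper381

/-- the manifold of unit decomposable tensors -/
abbrev MM : Type := Mfd dd

/-- the class of `x ⊗ y ⊗ z` -/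
def mk (x y z : E3) (hx : ‖x‖ = 1) (hy : ‖y‖ = 1) (hz : ‖z‖ = 1) : MM :=
  ⟨tens x y z, x, y, z, hx, hy, hz, rfl⟩

lemma inc_mk (x y z : E3) (hx : ‖x‖ = 1) (hy : ‖y‖ = 1) (hz : ‖z‖ = 1) :
    inc dd (mk x y z hx hy hz) = tens x y z := rfl

lemma exists_mk (T : MM) : ∃ x y z : E3, ∃ (hx : ‖x‖ = 1) (hy : ‖y‖ = 1) (hz : ‖z‖ = 1),
    T = mk x y z hx hy hz := by
  obtain ⟨T, x, y, z, hx, hy, hz, rfl⟩ := T
  exact ⟨x, y, z, hx, hy, hz, rfl⟩

/-- the covering by the product of three spheres -/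
def par (p : Metric.sphere (0 : E3) 1 × Metric.sphere (0 : E3) 1 × Metric.sphere (0 : E3) 1) :
    MM :=
  mk p.1 p.2.1 p.2.2 (by simp) (by simp) (by simp)

lemma continuous_par : Continuous par := by
  apply Continuous.subtype_mk
  have h : Continuous fun w : E3 × E3 × E3 => tens w.1 w.2.1 w.2.2 :=
    (contDiff_tens contDiff_fst (contDiff_fst.comp contDiff_snd)
      (contDiff_snd.comp contDiff_snd)).continuous
  exact h.comp (by fun_prop :
    Continuous fun p : Metric.sphere (0 : E3) 1 × Metric.sphere (0 : E3) 1 ×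
      Metric.sphere (0 : E3) 1 => ((p.1 : E3), (p.2.1 : E3), (p.2.2 : E3)))

lemma surjective_par : Function.Surjective par := by
  intro T
  obtain ⟨x, y, z, hx, hy, hz, rfl⟩ := exists_mk T
  exact ⟨(⟨x, by simpa using hx⟩, ⟨y, by simpa using hy⟩, ⟨z, by simpa using hz⟩), rfl⟩

instance : CompactSpace MM := by
  have h : IsCompact (range par) := isCompact_range continuous_par
  rw [surjective_par.range_eq] at h
  exact ⟨h⟩

instance : ConnectedSpace (Metric.sphere (0 : E3) 1) := by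
  apply Subtype.connectedSpace
  apply isConnected_sphere _ _ zero_le_one
  rw [← Module.finrank_eq_rank]
  simp

instance : ConnectedSpace MM := surjective_par.connectedSpace continuous_par

/-- the Riemannian distance -/
instance instMet : MetricSpace MM := met dd

lemma chordal_le (S T : MM) : dist (inc dd S) (inc dd T) ≤ dist S T := by
  have h := lower dd S T
  have h2 : edist (inc dd S) (inc dd T) ≤ edist S T := h
  rw [edist_dist, edist_dist] at h2
  exact (ENNReal.ofReal_le_ofReal_iff dist_nonneg).1 h2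

section act

/-- action of a linear isometry on the first factor -/
def act1 (A : E3 ≃ₗᵢ[ℝ] E3) : F27 →ₗ[ℝ] F27 where
  toFun T := WithLp.toLp 2 fun p => A (WithLp.toLp 2 fun i => T (i, p.2.1, p.2.2)) p.1
  map_add' S T := by
    ext p
    have : (WithLp.toLp 2 fun i => (S + T) (i, p.2.1, p.2.2) : E3) =
      (WithLp.toLp 2 fun i => S (i, p.2.1, p.2.2)) + WithLp.toLp 2 fun i => T (i, p.2.1, p.2.2) := by
      ext i; rfl
    simp only [this, map_add]
    rfl
  map_smul' c T := by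
    ext p
    have : (WithLp.toLp 2 fun i => (c • T) (i, p.2.1, p.2.2) : E3) =
      c • (WithLp.toLp 2 fun i => T (i, p.2.1, p.2.2)) := by
      ext i; rfl
    simp only [this, map_smul]
    rfl

/-- action of a linear isometry on the second factor -/
def act2 (A : E3 ≃ₗᵢ[ℝ] E3) : F27 →ₗ[ℝ] F27 where
  toFun T := WithLp.toLp 2 fun p => A (WithLp.toLp 2 fun i => T (p.1, i, p.2.2)) p.2.1
  map_add' S T := by
    ext p
    have : (WithLp.toLp 2 fun i => (S + T) (p.1, i, p.2.2) : E3) =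
      (WithLp.toLp 2 fun i => S (p.1, i, p.2.2)) + WithLp.toLp 2 fun i => T (p.1, i, p.2.2) := by
      ext i; rfl
    simp only [this, map_add]
    rfl
  map_smul' c T := by
    ext p
    have : (WithLp.toLp 2 fun i => (c • T) (p.1, i, p.2.2) : E3) =
      c • (WithLp.toLp 2 fun i => T (p.1, i, p.2.2)) := by
      ext i; rfl
    simp only [this, map_smul]
    rfl

/-- action of a linear isometry on the third factor -/
def act3 (A : E3 ≃ₗᵢ[ℝ] E3) : F27 →ₗ[ℝ] F27 where
  toFun T := WithLp.toLp 2 fun p => A (WithLp.toLp 2 fun i => T (p.1, p.2.1, i)) p.2.2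
  map_add' S T := by
    ext p
    have : (WithLp.toLp 2 fun i => (S + T) (p.1, p.2.1, i) : E3) =
      (WithLp.toLp 2 fun i => S (p.1, p.2.1, i)) + WithLp.toLp 2 fun i => T (p.1, p.2.1, i) := by
      ext i; rfl
    simp only [this, map_add]
    rfl
  map_smul' c T := by
    ext p
    have : (WithLp.toLp 2 fun i => (c • T) (p.1, p.2.1, i) : E3) =
      c • (WithLp.toLp 2 fun i => T (p.1, p.2.1, i)) := by
      ext i; rfl
    simp only [this, map_smul]
    rfl

lemma norm_sq_E3 (v : E3) : ‖v‖ ^ 2 = ∑ i, v i ^ 2 := by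
  rw [EuclideanSpace.norm_sq_eq]; simp

lemma norm_act1 (A : E3 ≃ₗᵢ[ℝ] E3) (T : F27) : ‖act1 A T‖ = ‖T‖ := by
  rw [← pow_left_inj₀ (norm_nonneg _) (norm_nonneg _) (two_ne_zero)]
  rw [EuclideanSpace.norm_sq_eq, EuclideanSpace.norm_sq_eq]
  simp only [Fintype.sum_prod_type, Real.norm_eq_abs, sq_abs]
  rw [Finset.sum_comm, Finset.sum_comm (s := Finset.univ (α := Fin 3))
    (t := Finset.univ (α := Fin 3)) (f := fun i j => ∑ k, T (i, j, k) ^ 2)]
  refine Finset.sum_congr rfl fun j _ => ?_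
  rw [Finset.sum_comm, Finset.sum_comm (s := Finset.univ (α := Fin 3))
    (t := Finset.univ (α := Fin 3)) (f := fun i k => T (i, j, k) ^ 2)]
  refine Finset.sum_congr rfl fun k _ => ?_
  have h := A.norm_map (WithLp.toLp 2 fun i => T (i, j, k))
  have h2 : ‖A (WithLp.toLp 2 fun i => T (i, j, k))‖ ^ 2 =
    ‖(WithLp.toLp 2 fun i => T (i, j, k) : E3)‖ ^ 2 := by rw [h]
  rw [norm_sq_E3, norm_sq_E3] at h2
  exact h2

lemma norm_act2 (A : E3 ≃ₗᵢ[ℝ] E3) (T : F27) : ‖act2 A T‖ = ‖T‖ := by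
  rw [← pow_left_inj₀ (norm_nonneg _) (norm_nonneg _) (two_ne_zero)]
  rw [EuclideanSpace.norm_sq_eq, EuclideanSpace.norm_sq_eq]
  simp only [Fintype.sum_prod_type, Real.norm_eq_abs, sq_abs]
  refine Finset.sum_congr rfl fun i _ => ?_
  rw [Finset.sum_comm, Finset.sum_comm (s := Finset.univ (α := Fin 3))
    (t := Finset.univ (α := Fin 3)) (f := fun j k => T (i, j, k) ^ 2)]
  refine Finset.sum_congr rfl fun k _ => ?_
  have h := A.norm_map (WithLp.toLp 2 fun j => T (i, j, k))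
  have h2 : ‖A (WithLp.toLp 2 fun j => T (i, j, k))‖ ^ 2 =
    ‖(WithLp.toLp 2 fun j => T (i, j, k) : E3)‖ ^ 2 := by rw [h]
  rw [norm_sq_E3, norm_sq_E3] at h2
  exact h2

lemma norm_act3 (A : E3 ≃ₗᵢ[ℝ] E3) (T : F27) : ‖act3 A T‖ = ‖T‖ := by
  rw [← pow_left_inj₀ (norm_nonneg _) (norm_nonneg _) (two_ne_zero)]
  rw [EuclideanSpace.norm_sq_eq, EuclideanSpace.norm_sq_eq]
  simp only [Fintype.sum_prod_type, Real.norm_eq_abs, sq_abs]
  refine Finset.sum_congr rfl fun i _ => ?_
  refine Finset.sum_congr rfl fun j _ => ?_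
  have h := A.norm_map (WithLp.toLp 2 fun k => T (i, j, k))
  have h2 : ‖A (WithLp.toLp 2 fun k => T (i, j, k))‖ ^ 2 =
    ‖(WithLp.toLp 2 fun k => T (i, j, k) : E3)‖ ^ 2 := by rw [h]
  rw [norm_sq_E3, norm_sq_E3] at h2
  exact h2

lemma act1_tens (A : E3 ≃ₗᵢ[ℝ] E3) (x y z : E3) : act1 A (tens x y z) = tens (A x) y z := by
  ext p
  have : (WithLp.toLp 2 fun i => tens x y z (i, p.2.1, p.2.2) : E3) = (y p.2.1 * z p.2.2) • x := by
    ext i; simp only [tens_apply, PiLp.smul_apply, smul_eq_mul]; ring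
  change A (WithLp.toLp 2 fun i => tens x y z (i, p.2.1, p.2.2)) p.1 = _
  rw [this, map_smul]
  simp only [tens_apply, PiLp.smul_apply, smul_eq_mul]; ring

lemma act2_tens (A : E3 ≃ₗᵢ[ℝ] E3) (x y z : E3) : act2 A (tens x y z) = tens x (A y) z := by
  ext p
  have : (WithLp.toLp 2 fun i => tens x y z (p.1, i, p.2.2) : E3) = (x p.1 * z p.2.2) • y := by
    ext i; simp only [tens_apply, PiLp.smul_apply, smul_eq_mul]; ring
  change A (WithLp.toLp 2 fun i => tens x y z (p.1, i, p.2.2)) p.2.1 = _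
  rw [this, map_smul]
  simp only [tens_apply, PiLp.smul_apply, smul_eq_mul]; ring

lemma act3_tens (A : E3 ≃ₗᵢ[ℝ] E3) (x y z : E3) : act3 A (tens x y z) = tens x y (A z) := by
  ext p
  have : (WithLp.toLp 2 fun i => tens x y z (p.1, p.2.1, i) : E3) = (x p.1 * y p.2.1) • z := by
    ext i; simp only [tens_apply, PiLp.smul_apply, smul_eq_mul]
  change A (WithLp.toLp 2 fun i => tens x y z (p.1, p.2.1, i)) p.2.2 = _
  rw [this, map_smul]
  simp only [tens_apply, PiLp.smul_apply, smul_eq_mul]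

/-- the action of a triple of linear isometries -/
def act (A B C : E3 ≃ₗᵢ[ℝ] E3) : F27 →L[ℝ] F27 :=
  LinearMap.toContinuousLinearMap (act1 A ∘ₗ act2 B ∘ₗ act3 C)

lemma norm_act (A B C : E3 ≃ₗᵢ[ℝ] E3) (T : F27) : ‖act A B C T‖ = ‖T‖ := by
  change ‖act1 A (act2 B (act3 C T))‖ = ‖T‖
  rw [norm_act1, norm_act2, norm_act3]

lemma act_tens (A B C : E3 ≃ₗᵢ[ℝ] E3) (x y z : E3) :
    act A B C (tens x y z) = tens (A x) (B y) (C z) := by
  change act1 A (act2 B (act3 C (tens x y z))) = _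
  rw [act3_tens, act2_tens, act1_tens]

/-- the induced map -/
def am (A B C : E3 ≃ₗᵢ[ℝ] E3) (T : MM) : MM :=
  ⟨act A B C (inc dd T), by
    obtain ⟨T, x, y, z, hx, hy, hz, rfl⟩ := T
    exact ⟨A x, B y, C z, by rw [A.norm_map, hx], by rw [B.norm_map, hy], by rw [C.norm_map, hz],
      act_tens A B C x y z⟩⟩

lemma inc_am (A B C : E3 ≃ₗᵢ[ℝ] E3) (T : MM) : inc dd (am A B C T) = act A B C (inc dd T) := rfl

lemma edist_am_le (A B C : E3 ≃ₗᵢ[ℝ] E3) (S T : MM) :
    edist (am A B C S) (am A B C T) ≤ edist S T :=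
  riemannianEDist_map_le dd dd (act A B C) (fun v => (norm_act A B C v).le) (am A B C)
    (fun _ => rfl) S T

lemma am_mk (A B C : E3 ≃ₗᵢ[ℝ] E3) (x y z : E3) (hx : ‖x‖ = 1) (hy : ‖y‖ = 1) (hz : ‖z‖ = 1) :
    am A B C (mk x y z hx hy hz) = mk (A x) (B y) (C z) (by rw [A.norm_map, hx])
      (by rw [B.norm_map, hy]) (by rw [C.norm_map, hz]) :=
  Subtype.ext (act_tens A B C x y z)

lemma am_symm (A B C : E3 ≃ₗᵢ[ℝ] E3) (T : MM) : am A.symm B.symm C.symm (am A B C T) = T := by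
  obtain ⟨x, y, z, hx, hy, hz, rfl⟩ := exists_mk T
  rw [am_mk, am_mk]
  simp only [LinearIsometryEquiv.symm_apply_apply]

lemma am_symm' (A B C : E3 ≃ₗᵢ[ℝ] E3) (T : MM) : am A B C (am A.symm B.symm C.symm T) = T := by
  obtain ⟨x, y, z, hx, hy, hz, rfl⟩ := exists_mk T
  rw [am_mk, am_mk]
  simp only [LinearIsometryEquiv.apply_symm_apply]

/-- the isometry of the manifold defined by three linear isometries -/
def iso (A B C : E3 ≃ₗᵢ[ℝ] E3) : MM ≃ᵢ MM where
  toFun := am A B C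
  invFun := am A.symm B.symm C.symm
  left_inv := am_symm A B C
  right_inv := am_symm' A B C
  isometry_toFun := fun S T => by
    apply le_antisymm (edist_am_le A B C S T)
    have h := edist_am_le A.symm B.symm C.symm (am A B C S) (am A B C T)
    rwa [am_symm, am_symm] at h

lemma iso_mk (A B C : E3 ≃ₗᵢ[ℝ] E3) (x y z : E3) (hx : ‖x‖ = 1) (hy : ‖y‖ = 1) (hz : ‖z‖ = 1) :
    iso A B C (mk x y z hx hy hz) = mk (A x) (B y) (C z) (by rw [A.norm_map, hx])
      (by rw [B.norm_map, hy]) (by rw [C.norm_map, hz]) := am_mk A B C x y z hx hy hz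

end act

end Pool.Agent.W538.TwoNum
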