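import Pool.Agent.W538.TwoNum.Seg2
import Pool.Agent.W538.TwoNum.Smith
import Pool.Agent.Helper381.Riem3

/-! The two-number of the manifold of unit decomposable tensors. -/

open Bundle Bornology Set MeasureTheory Manifold Filter Topology
open scoped ENNReal ContDiff Manifold NNReal

noncomputable section

namespace Pool.Agent.W538.TwoNum

open Pool.Agent.W538.Sub Pool.Agent.Helper381

/-- the linear isometry fixing `x` and reversing the orthogonal complement of `x` -/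
def S (x : E3) : E3 ≃ₗᵢ[ℝ] E3 := (ℝ ∙ x).reflection

lemma S_apply {x : E3} (hx : ‖x‖ = 1) (v : E3) : S x v = (2 * inner ℝ x v) • x - v := by
  unfold S
  rw [Submodule.reflection_apply, Submodule.starProjection_unit_singleton ℝ hx]
  module

lemma S_S (x v : E3) : S x (S x v) = v := Submodule.reflection_reflection _ v

lemma S_self {x : E3} (hx : ‖x‖ = 1) : S x x = x := by
  rw [S_apply hx, real_inner_self_eq_norm_sq, hx]
  module

/-- the symmetry at `x ⊗ y ⊗ z` -/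
def sym (x y z : E3) : MM ≃ᵢ MM := iso (S x) (S y) (S z)

lemma sym_mk (x y z a b c : E3) (ha : ‖a‖ = 1) (hb : ‖b‖ = 1) (hc : ‖c‖ = 1) :
    sym x y z (mk a b c ha hb hc) = mk (S x a) (S y b) (S z c) (by rw [LinearIsometryEquiv.norm_map, ha])
      (by rw [LinearIsometryEquiv.norm_map, hb]) (by rw [LinearIsometryEquiv.norm_map, hc]) :=
  iso_mk _ _ _ _ _ _ _ _ _

lemma sym_sym (x y z : E3) (T : MM) : sym x y z (sym x y z T) = T := by
  obtain ⟨a, b, c, ha, hb, hc, rfl⟩ := exists_mk T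
  rw [sym_mk, sym_mk]
  simp only [S_S]

/-- equality of unit vectors through the inner product -/
lemma eq_iff_inner {V : Type} [NormedAddCommGroup V] [InnerProductSpace ℝ V] {u v : V}
    (hu : ‖u‖ = 1) (hv : ‖v‖ = 1) : u = v ↔ inner ℝ u v = 1 :=
  (inner_eq_one_iff_of_norm_eq_one hu hv).symm

lemma norm_inc (T : MM) : ‖inc dd T‖ = 1 := by
  obtain ⟨a, b, c, ha, hb, hc, rfl⟩ := exists_mk T
  rw [inc_mk, norm_tens, ha, hb, hc]; norm_num

lemma mk_eq_iff (x y z a b c : E3) (hx : ‖x‖ = 1) (hy : ‖y‖ = 1) (hz : ‖z‖ = 1)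
    (ha : ‖a‖ = 1) (hb : ‖b‖ = 1) (hc : ‖c‖ = 1) :
    mk x y z hx hy hz = mk a b c ha hb hc ↔ inner ℝ x a * inner ℝ y b * inner ℝ z c = 1 := by
  rw [← inner_tens, ← inc_mk x y z hx hy hz, ← inc_mk a b c ha hb hc,
    ← eq_iff_inner (norm_inc _) (norm_inc _)]
  exact ⟨fun h => by rw [h], fun h => inc_inj dd h⟩

lemma sq_inner_le {a b : E3} (ha : ‖a‖ = 1) (hb : ‖b‖ = 1) : inner ℝ a b ^ 2 ≤ 1 := by
  have h := abs_real_inner_le_norm a b
  rw [ha, hb, one_mul] at h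
  rw [← sq_abs]
  nlinarith [abs_nonneg (inner ℝ a b : ℝ)]

lemma inner_S {x a : E3} (hx : ‖x‖ = 1) (ha : ‖a‖ = 1) :
    inner ℝ (S x a) a = 2 * (inner ℝ x a : ℝ) ^ 2 - 1 := by
  rw [S_apply hx, inner_sub_left, inner_smul_left, real_inner_self_eq_norm_sq, ha]
  simp only [conj_trivial]
  ring

/-- a product of three numbers of absolute value at most one -/
lemma prod_eq_one {p q r : ℝ} (hp : |p| ≤ 1) (hq : |q| ≤ 1) (hr : |r| ≤ 1) (h : p * q * r = 1) :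
    |p| = 1 ∧ |q| = 1 ∧ |r| = 1 := by
  have h1 : |p| * |q| * |r| = 1 := by rw [← abs_mul, ← abs_mul, h, abs_one]
  have p0 := abs_nonneg p
  have q0 := abs_nonneg q
  have r0 := abs_nonneg r
  have hqr : |q| * |r| ≤ 1 := mul_le_one₀ hq r0 hr
  have hpr : |p| * |r| ≤ 1 := mul_le_one₀ hp r0 hr
  have hpq : |p| * |q| ≤ 1 := mul_le_one₀ hp q0 hq
  refine ⟨le_antisymm hp ?_, le_antisymm hq ?_, le_antisymm hr ?_⟩
  · nlinarith [mul_le_mul_of_nonneg_left hqr p0]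
  · nlinarith [mul_le_mul_of_nonneg_left hpr q0]
  · nlinarith [mul_le_mul_of_nonneg_left hpq r0]

/-- the fixed point condition -/
lemma sym_fix_iff (x y z a b c : E3) (hx : ‖x‖ = 1) (hy : ‖y‖ = 1) (hz : ‖z‖ = 1)
    (ha : ‖a‖ = 1) (hb : ‖b‖ = 1) (hc : ‖c‖ = 1) :
    sym x y z (mk a b c ha hb hc) = mk a b c ha hb hc ↔
      (2 * (inner ℝ x a : ℝ) ^ 2 - 1) * (2 * (inner ℝ y b : ℝ) ^ 2 - 1) *
        (2 * (inner ℝ z c : ℝ) ^ 2 - 1) = 1 := by
  rw [sym_mk, mk_eq_iff, inner_S hx ha, inner_S hy hb, inner_S hz hc]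

lemma sq_cases {p : ℝ} (h : |2 * p ^ 2 - 1| = 1) : p ^ 2 = 1 ∨ p ^ 2 = 0 := by
  rcases abs_eq_abs.1 (h.trans abs_one.symm) with h | h
  · left; linarith
  · right; linarith

/-- the possible relative positions of a point and a fixed point of its symmetry -/
lemma sym_fix_cases {x y z a b c : E3} (hx : ‖x‖ = 1) (hy : ‖y‖ = 1) (hz : ‖z‖ = 1)
    (ha : ‖a‖ = 1) (hb : ‖b‖ = 1) (hc : ‖c‖ = 1)
    (h : sym x y z (mk a b c ha hb hc) = mk a b c ha hb hc) :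
    ((inner ℝ x a : ℝ) ^ 2 = 1 ∧ (inner ℝ y b : ℝ) ^ 2 = 1 ∧ (inner ℝ z c : ℝ) ^ 2 = 1) ∨
    ((inner ℝ x a : ℝ) ^ 2 = 1 ∧ (inner ℝ y b : ℝ) ^ 2 = 0 ∧ (inner ℝ z c : ℝ) ^ 2 = 0) ∨
    ((inner ℝ x a : ℝ) ^ 2 = 0 ∧ (inner ℝ y b : ℝ) ^ 2 = 1 ∧ (inner ℝ z c : ℝ) ^ 2 = 0) ∨
    ((inner ℝ x a : ℝ) ^ 2 = 0 ∧ (inner ℝ y b : ℝ) ^ 2 = 0 ∧ (inner ℝ z c : ℝ) ^ 2 = 1) := by
  rw [sym_fix_iff x y z a b c hx hy hz ha hb hc] at h
  have key : ∀ {u v : E3}, ‖u‖ = 1 → ‖v‖ = 1 → |2 * (inner ℝ u v : ℝ) ^ 2 - 1| ≤ 1 := by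
    intro u v hu hv
    have h1 := sq_inner_le hu hv
    have h2 := sq_nonneg (inner ℝ u v : ℝ)
    rw [abs_le]; constructor <;> linarith
  obtain ⟨h1, h2, h3⟩ := prod_eq_one (key hx ha) (key hy hb) (key hz hc) h
  rcases sq_cases h1 with e1 | e1 <;> rcases sq_cases h2 with e2 | e2 <;>
    rcases sq_cases h3 with e3 | e3 <;> rw [e1, e2, e3] at h <;> norm_num at h <;>
    simp only [e1, e2, e3] <;> norm_num

/-- a fixed point of the symmetry at `T` close to `T` is `T` -/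
lemma sym_isolated {x y z a b c : E3} (hx : ‖x‖ = 1) (hy : ‖y‖ = 1) (hz : ‖z‖ = 1)
    (ha : ‖a‖ = 1) (hb : ‖b‖ = 1) (hc : ‖c‖ = 1)
    (h : sym x y z (mk a b c ha hb hc) = mk a b c ha hb hc)
    (hd : dist (mk a b c ha hb hc) (mk x y z hx hy hz) < 1) :
    mk a b c ha hb hc = mk x y z hx hy hz := by
  have h1 := (chordal_le (mk a b c ha hb hc) (mk x y z hx hy hz)).trans_lt hd
  rw [dist_eq_norm] at h1
  have h2 : ‖inc dd (mk a b c ha hb hc) - inc dd (mk x y z hx hy hz)‖ ^ 2 < 1 := by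
    have := norm_nonneg (inc dd (mk a b c ha hb hc) - inc dd (mk x y z hx hy hz))
    nlinarith
  rw [norm_sub_sq_real, norm_inc, norm_inc, inc_mk, inc_mk, inner_tens] at h2
  rw [mk_eq_iff]
  set p := (inner ℝ a x : ℝ)
  set q := (inner ℝ b y : ℝ)
  set r := (inner ℝ c z : ℝ)
  have hcases := sym_fix_cases hx hy hz ha hb hc h
  rw [real_inner_comm a x, real_inner_comm b y, real_inner_comm c z] at hcases
  have hpos : 1 / 2 < p * q * r := by linarith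
  rcases hcases with ⟨e1, e2, e3⟩ | ⟨e1, e2, e3⟩ | ⟨e1, e2, e3⟩ | ⟨e1, e2, e3⟩
  · have h4 : (p * q * r) ^ 2 = 1 := by
      rw [mul_pow, mul_pow]
      have e1' : p ^ 2 = 1 := e1
      have e2' : q ^ 2 = 1 := e2
      have e3' : r ^ 2 = 1 := e3
      rw [e1', e2', e3']; norm_num
    nlinarith
  · have e2' : q = 0 := by simpa using e2
    rw [e2'] at hpos; norm_num at hpos
  · have e2' : p = 0 := by simpa using e1
    rw [e2'] at hpos; norm_num at hpos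
  · have e2' : p = 0 := by simpa using e1
    rw [e2'] at hpos; norm_num at hpos

lemma isSymmetryAt_sym {x y z : E3} (hx : ‖x‖ = 1) (hy : ‖y‖ = 1) (hz : ‖z‖ = 1) :
    IsSymmetryAt (mk x y z hx hy hz) (sym x y z) := by
  refine ⟨sym_sym x y z, ?_, 1, one_pos, ?_⟩
  · rw [sym_mk]
    simp only [S_self hx, S_self hy, S_self hz]
  · intro T hT hfix
    obtain ⟨a, b, c, ha, hb, hc, rfl⟩ := exists_mk T
    exact sym_isolated hx hy hz ha hb hc hfix hT

/-- the manifold is symmetric -/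
lemma isSymmetric_MM : IsSymmetric MM := by
  intro T
  obtain ⟨a, b, c, ha, hb, hc, rfl⟩ := exists_mk T
  exact ⟨_, isSymmetryAt_sym ha hb hc⟩

end Pool.Agent.W538.TwoNum
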