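import Pool.Agent.W538.TwoNum.Seg3

/-! Upper bound for the two-number. -/

open Bundle Bornology Set MeasureTheory Manifold Filter Topology
open scoped ENNReal ContDiff Manifold NNReal

noncomputable section

namespace Pool.Agent.W538.TwoNum

open Pool.Agent.W538.Sub Pool.Agent.Helper381

/-- Parseval for three orthonormal vectors in three-space -/
lemma parseval {e : Fin 3 → E3} (he : Orthonormal ℝ e) (w : E3) :
    ∑ i, (inner ℝ (e i) w : ℝ) ^ 2 = ‖w‖ ^ 2 := by
  have hcard : Fintype.card (Fin 3) = Module.finrank ℝ E3 := by simp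
  let b := basisOfOrthonormalOfCardEqFinrank he hcard
  have hb : ⇑b = e := coe_basisOfOrthonormalOfCardEqFinrank he hcard
  have hbo : Orthonormal ℝ b := by rw [hb]; exact he
  let o := b.toOrthonormalBasis hbo
  have ho : ⇑o = e := by simp [o, hb]
  have h := o.sum_sq_norm_inner_right w
  rw [← h]
  refine Finset.sum_congr rfl fun i _ => ?_
  rw [← ho, Real.norm_eq_abs, sq_abs]

lemma sq_eq_one_iff_of_side' {p : ℝ} (h : p ^ 2 = 1) : p = 1 ∨ p = -1 := by
  have : (p - 1) * (p + 1) = 0 := by linear_combination h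
  rcases mul_eq_zero.1 this with h | h
  · left; linarith
  · right; linarith

/-- The combinatorial core: there are no five triples of unit vectors of `ℝ³` such that any two of
them have exactly one coordinate in common and are orthogonal in the other two coordinates. -/
lemma no_five (v : Fin 3 → Fin 5 → E3) (hv : ∀ c i, ‖v c i‖ = 1)
    (h01 : ∀ c i j, (inner ℝ (v c i) (v c j) : ℝ) ^ 2 = 1 ∨
      (inner ℝ (v c i) (v c j) : ℝ) ^ 2 = 0)
    (hsum : ∀ i j, i ≠ j → ∑ c, (inner ℝ (v c i) (v c j) : ℝ) ^ 2 = 1) : False := by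
  -- a common coordinate of each element with the element `0`
  have hcol : ∀ a : Fin 4, ∃ c : Fin 3, (inner ℝ (v c 0) (v c a.succ) : ℝ) ^ 2 = 1 := by
    intro a
    by_contra hcon
    push Not at hcon
    have h0 : ∀ c, (inner ℝ (v c 0) (v c a.succ) : ℝ) ^ 2 = 0 := fun c =>
      (h01 c 0 a.succ).resolve_left (hcon c)
    have := hsum 0 a.succ (Fin.succ_ne_zero a).symm
    simp only [h0, Finset.sum_const_zero] at this
    exact zero_ne_one this
  choose f hf using hcol
  obtain ⟨a, b, hab, hfab⟩ := Fintype.exists_ne_map_eq_of_card_lt f (by simp)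
  set c := f a with hc
  have ha := hf a
  have hb := hf b
  rw [← hc] at ha
  rw [← hfab] at hb
  -- a fourth element
  obtain ⟨t, ht0, hta, htb⟩ : ∃ t : Fin 5, t ≠ 0 ∧ t ≠ a.succ ∧ t ≠ b.succ := by
    have : ∀ a b : Fin 4, ∃ t : Fin 5, t ≠ 0 ∧ t ≠ a.succ ∧ t ≠ b.succ := by decide
    exact this a b
  have hab' : a.succ ≠ b.succ := fun h => hab (Fin.succ_injective _ h)
  -- vectors with squared inner product one are equal up to sign
  have hpm : ∀ {u w : E3}, ‖u‖ = 1 → ‖w‖ = 1 → (inner ℝ u w : ℝ) ^ 2 = 1 → w = u ∨ w = -u := by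
    intro u w hu hw h
    rcases sq_eq_one_iff_of_side' h with h | h
    · left; exact ((eq_iff_inner hu hw).2 h).symm
    · right
      have h2 : inner ℝ u (-w) = 1 := by rw [inner_neg_right, h, neg_neg]
      have h3 := (eq_iff_inner hu (by rw [norm_neg, hw])).2 h2
      rw [h3, neg_neg]
  have ha' := hpm (hv c 0) (hv c a.succ) ha
  have hb' := hpm (hv c 0) (hv c b.succ) hb
  let idx : Fin 3 → Fin 5 := ![0, a.succ, b.succ]
  have hidx : ∀ k, v c (idx k) = v c 0 ∨ v c (idx k) = -v c 0 := by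
    intro k
    fin_cases k
    · left; rfl
    · exact ha'
    · exact hb'
  have hinj : Function.Injective idx := by
    intro k l hkl
    fin_cases k <;> fin_cases l <;> simp [idx] at hkl ⊢
    · exact absurd hkl.symm (Fin.succ_ne_zero a)
    · exact absurd hkl.symm (Fin.succ_ne_zero b)
    · exact absurd hkl hab
    · exact absurd hkl.symm hab
  have ht : ∀ k, idx k ≠ t := by
    intro k
    fin_cases k
    · exact ht0.symm
    · exact hta.symm
    · exact htb.symm
  have hcc : ∀ k l, (inner ℝ (v c (idx k)) (v c (idx l)) : ℝ) ^ 2 = 1 := by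
    intro k l
    have h1 := hv c 0
    rcases hidx k with h | h <;> rcases hidx l with h' | h' <;> rw [h, h'] <;>
      simp [inner_neg_left, inner_neg_right, h1]
  have hort : ∀ c', c' ≠ c → Orthonormal ℝ (fun k => v c' (idx k)) := by
    intro c' hc'
    refine ⟨fun k => hv c' _, fun k l hkl => ?_⟩
    have h1 := hsum (idx k) (idx l) (fun h => hkl (hinj h))
    have h2 : ∀ s ∈ (Finset.univ : Finset (Fin 3)),
        0 ≤ (inner ℝ (v s (idx k)) (v s (idx l)) : ℝ) ^ 2 := fun s _ => sq_nonneg _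
    have h3 := Finset.add_le_sum h2 (Finset.mem_univ c') (Finset.mem_univ c) hc'
    rw [h1, hcc k l] at h3
    have h4 : (inner ℝ (v c' (idx k)) (v c' (idx l)) : ℝ) ^ 2 ≤ 0 := by linarith
    exact pow_eq_zero_iff (two_ne_zero) |>.1 (le_antisymm h4 (sq_nonneg _))
  have htot : ∑ s, ∑ k, (inner ℝ (v s (idx k)) (v s t) : ℝ) ^ 2 = 3 := by
    rw [Finset.sum_comm]
    simp only [fun k => hsum (idx k) t (ht k)]
    simp
  have hP : ∑ k, (inner ℝ (v c (idx k)) (v c t) : ℝ) ^ 2 = 3 * (inner ℝ (v c 0) (v c t) : ℝ) ^ 2 := by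
    have : ∀ k, (inner ℝ (v c (idx k)) (v c t) : ℝ) ^ 2 = (inner ℝ (v c 0) (v c t) : ℝ) ^ 2 := by
      intro k
      rcases hidx k with h | h <;> rw [h]
      rw [inner_neg_left, neg_sq]
    simp only [this]
    simp
  have hO : ∀ s, s ≠ c → ∑ k, (inner ℝ (v s (idx k)) (v s t) : ℝ) ^ 2 = 1 := by
    intro s hs
    rw [parseval (hort s hs), hv]
    norm_num
  have hsplit := Finset.add_sum_erase Finset.univ
    (fun s => ∑ k, (inner ℝ (v s (idx k)) (v s t) : ℝ) ^ 2) (Finset.mem_univ c)
  have herase : ∑ s ∈ Finset.univ.erase c, ∑ k, (inner ℝ (v s (idx k)) (v s t) : ℝ) ^ 2 = 2 := by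
    rw [Finset.sum_congr rfl (fun s hs => hO s (Finset.ne_of_mem_erase hs))]
    simp
  rw [herase, htot, hP] at hsplit
  rcases h01 c 0 t with h | h <;> rw [h] at hsplit <;> norm_num at hsplit

/-- the function identifying a tensor up to sign -/
def sgq (T : MM) : (Fin 3 × Fin 3 × Fin 3) → (Fin 3 × Fin 3 × Fin 3) → ℝ :=
  fun p q => inc dd T p * inc dd T q

lemma sgq_eq {T T' : MM} (h : sgq T = sgq T') : inc dd T' = inc dd T ∨ inc dd T' = -inc dd T := by
  have h1 : ∀ p q, inc dd T p * inc dd T q = inc dd T' p * inc dd T' q := fun p q =>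
    congrFun (congrFun h p) q
  have h2 : (inner ℝ (inc dd T) (inc dd T') : ℝ) ^ 2 = 1 := by
    have h3 : (inner ℝ (inc dd T) (inc dd T) : ℝ) * inner ℝ (inc dd T) (inc dd T) =
        inner ℝ (inc dd T) (inc dd T') * inner ℝ (inc dd T) (inc dd T') := by
      simp only [PiLp.inner_apply, RCLike.inner_apply, conj_trivial]
      rw [Finset.sum_mul_sum, Finset.sum_mul_sum]
      refine Finset.sum_congr rfl fun p _ => Finset.sum_congr rfl fun q _ => ?_
      linear_combination (inc dd T p * inc dd T q) * h1 p q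
    rw [real_inner_self_eq_norm_sq, norm_inc] at h3
    rw [pow_two, ← h3]; norm_num
  rcases sq_eq_one_iff_of_side' h2 with h | h
  · left; exact ((eq_iff_inner (norm_inc T) (norm_inc T')).2 h).symm
  · right
    have h2 : inner ℝ (inc dd T) (-inc dd T') = 1 := by rw [inner_neg_right, h, neg_neg]
    have h3 := (eq_iff_inner (norm_inc T) (by rw [norm_neg, norm_inc])).2 h2
    rw [h3, neg_neg]

/-- the manifold has good charts -/
lemma geo : ∃ R, Geo MM E6 R := by
  let _ : RiemannianBundle (fun x : MM => TangentSpace 𝓘(ℝ, E6) x) := rb dd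
  have : IsRiemannianManifold 𝓘(ℝ, E6) MM := isRiem dd
  exact riemannian_geo (E := E6) (M := MM)

/-- antipodal points are fixed by the explicit symmetry -/
lemma antipodal_fix {A : Set MM} (hA : IsAntipodal A) {x y z : E3} (hx : ‖x‖ = 1) (hy : ‖y‖ = 1)
    (hz : ‖z‖ = 1) (hT : mk x y z hx hy hz ∈ A) {T' : MM} (hT' : T' ∈ A) :
    sym x y z T' = T' := by
  obtain ⟨R, G⟩ := geo
  obtain ⟨s, hs, hsT⟩ := hA _ hT _ hT'
  rw [G.symm_unique (isSymmetryAt_sym hx hy hz) hs]
  exact hsT

/-- the image of a finite antipodal set in the projectivisation has at most four elements -/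
lemma card_image_le (B : Finset MM) (hB : IsAntipodal (B : Set MM)) :
    (B.image sgq).card ≤ 4 := by
  classical
  by_contra hcon
  push Not at hcon
  obtain ⟨C, hC, hCc⟩ := Finset.exists_subset_card_eq (show 5 ≤ (B.image sgq).card by omega)
  have e : Fin 5 ≃ C := (Fintype.equivFinOfCardEq (by simpa using hCc)).symm
  have hpre : ∀ i : Fin 5, ∃ T ∈ B, sgq T = (e i).1 := by
    intro i
    have := hC (e i).2
    simpa using this
  choose T hTB hT using hpre
  choose x y z hx hy hz hxyz using fun i => exists_mk (T i)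
  have hne : ∀ i j, i ≠ j → sgq (T i) ≠ sgq (T j) := by
    intro i j hij h
    rw [hT, hT] at h
    exact hij (e.injective (Subtype.ext h))
  have hcases : ∀ i j,
      ((inner ℝ (x i) (x j) : ℝ) ^ 2 = 1 ∧ (inner ℝ (y i) (y j) : ℝ) ^ 2 = 1 ∧
        (inner ℝ (z i) (z j) : ℝ) ^ 2 = 1) ∨
      ((inner ℝ (x i) (x j) : ℝ) ^ 2 = 1 ∧ (inner ℝ (y i) (y j) : ℝ) ^ 2 = 0 ∧
        (inner ℝ (z i) (z j) : ℝ) ^ 2 = 0) ∨
      ((inner ℝ (x i) (x j) : ℝ) ^ 2 = 0 ∧ (inner ℝ (y i) (y j) : ℝ) ^ 2 = 1 ∧
        (inner ℝ (z i) (z j) : ℝ) ^ 2 = 0) ∨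
      ((inner ℝ (x i) (x j) : ℝ) ^ 2 = 0 ∧ (inner ℝ (y i) (y j) : ℝ) ^ 2 = 0 ∧
        (inner ℝ (z i) (z j) : ℝ) ^ 2 = 1) := by
    intro i j
    apply sym_fix_cases (hx i) (hy i) (hz i) (hx j) (hy j) (hz j)
    rw [← hxyz j]
    apply antipodal_fix hB (hx i) (hy i) (hz i)
    · rw [← hxyz i]; exact hTB i
    · exact hTB j
  refine no_five ![x, y, z] ?_ ?_ ?_
  · intro c i
    fin_cases c
    · exact hx i
    · exact hy i
    · exact hz i
  · intro c i j
    have := hcases i j
    fin_cases c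
    · change (inner ℝ (x i) (x j) : ℝ) ^ 2 = 1 ∨ (inner ℝ (x i) (x j) : ℝ) ^ 2 = 0
      tauto
    · change (inner ℝ (y i) (y j) : ℝ) ^ 2 = 1 ∨ (inner ℝ (y i) (y j) : ℝ) ^ 2 = 0
      tauto
    · change (inner ℝ (z i) (z j) : ℝ) ^ 2 = 1 ∨ (inner ℝ (z i) (z j) : ℝ) ^ 2 = 0
      tauto
  · intro i j hij
    rw [Fin.sum_univ_three]
    change (inner ℝ (x i) (x j) : ℝ) ^ 2 + (inner ℝ (y i) (y j) : ℝ) ^ 2 +
      (inner ℝ (z i) (z j) : ℝ) ^ 2 = 1
    rcases hcases i j with ⟨h1, h2, h3⟩ | ⟨h1, h2, h3⟩ | ⟨h1, h2, h3⟩ | ⟨h1, h2, h3⟩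
    · exfalso
      apply hne i j hij
      have h4 : (inner ℝ (inc dd (T i)) (inc dd (T j)) : ℝ) ^ 2 = 1 := by
        rw [hxyz i, hxyz j, inc_mk, inc_mk, inner_tens, mul_pow, mul_pow, h1, h2, h3]; norm_num
      have h5 : inc dd (T j) = inc dd (T i) ∨ inc dd (T j) = -inc dd (T i) := by
        rcases sq_eq_one_iff_of_side' h4 with h | h
        · left; exact ((eq_iff_inner (norm_inc _) (norm_inc _)).2 h).symm
        · right
          have h2 : inner ℝ (inc dd (T i)) (-inc dd (T j)) = 1 := by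
            rw [inner_neg_right, h, neg_neg]
          have h3 := (eq_iff_inner (norm_inc _) (by rw [norm_neg, norm_inc])).2 h2
          rw [h3, neg_neg]
      funext p q
      simp only [sgq]
      rcases h5 with h | h <;> rw [h] <;> simp
    · rw [h1, h2, h3]; norm_num
    · rw [h1, h2, h3]; norm_num
    · rw [h1, h2, h3]; norm_num

/-- a finite antipodal set has at most eight elements -/
lemma card_le_eight (B : Finset MM) (hB : IsAntipodal (B : Set MM)) : B.card ≤ 8 := by
  classical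
  have h := Finset.card_le_mul_card_image B 2 (f := sgq) ?_
  · have := card_image_le B hB
    omega
  · intro b hb
    obtain ⟨T, hT, rfl⟩ := Finset.mem_image.1 hb
    -- the fibre has at most two elements
    by_contra hcon
    push Not at hcon
    obtain ⟨T1, T2, T3, h1, h2, h3, h12, h13, h23⟩ := Finset.two_lt_card_iff.1 hcon
    simp only [Finset.mem_filter] at h1 h2 h3
    have k1 := sgq_eq h1.2.symm
    have k2 := sgq_eq h2.2.symm
    have k3 := sgq_eq h3.2.symm
    rcases k1 with k1 | k1 <;> rcases k2 with k2 | k2 <;> rcases k3 with k3 | k3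
    all_goals first
      | exact h12 (inc_inj dd (k1.trans k2.symm))
      | exact h13 (inc_inj dd (k1.trans k3.symm))
      | exact h23 (inc_inj dd (k2.trans k3.symm))

lemma twoNumber_le_eight : twoNumber MM ≤ 8 := by
  apply iSup_le
  rintro ⟨A, hA⟩
  by_contra hcon
  push Not at hcon
  have h9 : (9 : ℕ∞) ≤ A.encard := by
    have := Order.add_one_le_of_lt hcon
    exact le_trans (by norm_num) this
  obtain ⟨B, hBA, hB⟩ := Set.exists_subset_encard_eq h9
  have hfin : B.Finite := Set.finite_of_encard_eq_coe (k := 9) hB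
  have h := card_le_eight hfin.toFinset (by
    intro x hx y hy
    exact hA x (hBA (by simpa using hx)) y (hBA (by simpa using hy)))
  rw [hfin.encard_eq_coe_toFinset_card] at hB
  have hB' : hfin.toFinset.card = 9 := by exact_mod_cast hB
  omega

end Pool.Agent.W538.TwoNum
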