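import Pool.Agent.W538.TwoNum.Seg4

/-! Lower bounds: an antipodal set with eight points, and twelve isolated fixed points. -/

open Bundle Bornology Set MeasureTheory Manifold Filter Topology
open scoped ENNReal ContDiff Manifold NNReal

noncomputable section

namespace Pool.Agent.W538.TwoNum

open Pool.Agent.W538.Sub Pool.Agent.Helper381

/-- the standard basis -/
def e (i : Fin 3) : E3 := EuclideanSpace.single i 1

lemma norm_e (i : Fin 3) : ‖e i‖ = 1 := by simp [e]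

lemma inner_e (i : Fin 3) (v : E3) : inner ℝ (e i) v = v i := by
  simp [e, EuclideanSpace.inner_single_left]

lemma e_apply (i j : Fin 3) : e i j = if i = j then 1 else 0 := by
  simp [e, eq_comm]

lemma norm_sgn_e (b : Bool) (i : Fin 3) : ‖sgn b • e i‖ = 1 := by
  rw [norm_smul, Real.norm_eq_abs, abs_sgn, norm_e, one_mul]

/-- the basic points -/
def pt (b : Bool) (p : Fin 3 × Fin 3 × Fin 3) : MM :=
  mk (sgn b • e p.1) (e p.2.1) (e p.2.2) (norm_sgn_e _ _) (norm_e _) (norm_e _)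

lemma inc_pt (b : Bool) (p q : Fin 3 × Fin 3 × Fin 3) :
    inc dd (pt b p) q = if p = q then sgn b else 0 := by
  change (sgn b • e p.1) q.1 * e p.2.1 q.2.1 * e p.2.2 q.2.2 = _
  obtain ⟨i, j, k⟩ := p
  obtain ⟨i', j', k'⟩ := q
  simp only [PiLp.smul_apply, smul_eq_mul, e_apply, Prod.mk.injEq]
  by_cases h1 : i = i' <;> by_cases h2 : j = j' <;> by_cases h3 : k = k' <;> simp [h1, h2, h3]

lemma pt_inj (b b' : Bool) (p p' : Fin 3 × Fin 3 × Fin 3) (h : pt b p = pt b' p') :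
    b = b' ∧ p = p' := by
  have h1 : inc dd (pt b p) p = inc dd (pt b' p') p := by rw [h]
  rw [inc_pt, inc_pt, if_pos rfl] at h1
  by_cases hp : p' = p
  · refine ⟨?_, hp.symm⟩
    rw [if_pos hp] at h1
    cases b <;> cases b' <;> simp [sgn] at h1 ⊢ <;> norm_num at h1
  · rw [if_neg hp] at h1
    exact absurd h1 (sgn_ne b)

lemma sgn_sq (b : Bool) : sgn b ^ 2 = 1 := by rw [pow_two, sgn_mul_self]

lemma sq_inner_sgn (b b' : Bool) (i j : Fin 3) :
    (inner ℝ (sgn b • e i) (sgn b' • e j) : ℝ) ^ 2 = if i = j then 1 else 0 := by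
  rw [inner_smul_left, inner_smul_right, inner_e, e_apply]
  simp only [conj_trivial, mul_pow, sgn_sq, one_mul, ite_pow, one_pow]
  by_cases h : i = j
  · simp [h]
  · simp [h, Ne.symm h]

lemma sq_inner_e (i j : Fin 3) : (inner ℝ (e i) (e j) : ℝ) ^ 2 = if i = j then 1 else 0 := by
  rw [inner_e, e_apply]
  by_cases h : i = j
  · simp [h]
  · simp [h, Ne.symm h]

/-- sign of a coincidence -/
def cs (i j : Fin 3) : ℤ := if i = j then 1 else -1

lemma cs_eq (i j : Fin 3) : 2 * (if i = j then (1 : ℝ) else 0) - 1 = (cs i j : ℝ) := by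
  unfold cs
  by_cases h : i = j
  · simp [h]; norm_num
  · simp [h]

lemma sym_pt (b b' : Bool) (p p' : Fin 3 × Fin 3 × Fin 3)
    (h : cs p.1 p'.1 * cs p.2.1 p'.2.1 * cs p.2.2 p'.2.2 = 1) :
    sym (sgn b • e p.1) (e p.2.1) (e p.2.2) (pt b' p') = pt b' p' := by
  unfold pt
  rw [sym_fix_iff _ _ _ _ _ _ (norm_sgn_e _ _) (norm_e _) (norm_e _)]
  rw [sq_inner_sgn, sq_inner_e, sq_inner_e, cs_eq, cs_eq, cs_eq]
  exact_mod_cast h

/-- the four classes of an antipodal set -/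
def T4 : Finset (Fin 3 × Fin 3 × Fin 3) := {(0, 0, 0), (0, 1, 1), (1, 0, 1), (1, 1, 0)}

/-- an antipodal set -/
def A8 : Set MM := {T | ∃ b, ∃ p ∈ T4, T = pt b p}

lemma isAntipodal_A8 : IsAntipodal A8 := by
  rintro _ ⟨b, p, hp, rfl⟩ _ ⟨b', p', hp', rfl⟩
  refine ⟨sym (sgn b • e p.1) (e p.2.1) (e p.2.2), isSymmetryAt_sym _ _ _, sym_pt b b' p p' ?_⟩
  have : ∀ p ∈ T4, ∀ p' ∈ T4, cs p.1 p'.1 * cs p.2.1 p'.2.1 * cs p.2.2 p'.2.2 = 1 := by
    decide
  exact this p hp p' hp'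

open Classical in
/-- images of finite sets of triples -/
def ptSet (T : Finset (Fin 3 × Fin 3 × Fin 3)) : Finset MM :=
  ((Finset.univ : Finset Bool) ×ˢ T).image fun q => pt q.1 q.2

lemma card_ptSet (T : Finset (Fin 3 × Fin 3 × Fin 3)) : (ptSet T).card = 2 * T.card := by
  classical
  unfold ptSet
  rw [Finset.card_image_of_injective, Finset.card_product]
  · simp
  · rintro ⟨b, p⟩ ⟨b', p'⟩ h
    obtain ⟨h1, h2⟩ := pt_inj b b' p p' h
    rw [h1, h2]

lemma mem_ptSet (T : Finset (Fin 3 × Fin 3 × Fin 3)) (x : MM) :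
    x ∈ ptSet T ↔ ∃ b, ∃ p ∈ T, x = pt b p := by
  classical
  unfold ptSet
  constructor
  · intro h
    obtain ⟨⟨b, p⟩, hp, rfl⟩ := Finset.mem_image.1 h
    exact ⟨b, p, (Finset.mem_product.1 hp).2, rfl⟩
  · rintro ⟨b, p, hp, rfl⟩
    exact Finset.mem_image.2 ⟨(b, p), Finset.mem_product.2 ⟨Finset.mem_univ _, hp⟩, rfl⟩

lemma A8_eq : A8 = (ptSet T4 : Set MM) := by
  ext x
  rw [Finset.mem_coe, mem_ptSet]
  rfl

lemma eight_le_twoNumber : 8 ≤ twoNumber MM := by
  have h : A8.encard = 8 := by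
    rw [A8_eq, Set.encard_coe_eq_coe_finsetCard, card_ptSet]
    rfl
  rw [← h]
  exact le_iSup (fun A : {A : Set MM // IsAntipodal A} => A.1.encard) ⟨A8, isAntipodal_A8⟩

theorem twoNumber_eq : twoNumber MM = 8 := le_antisymm twoNumber_le_eight eight_le_twoNumber

/-- the six permutations -/
def T6 : Finset (Fin 3 × Fin 3 × Fin 3) :=
  {(0, 1, 2), (0, 2, 1), (1, 0, 2), (1, 2, 0), (2, 0, 1), (2, 1, 0)}

/-- the symmetry at `e_i ⊗ e_i ⊗ e_i` -/
def gi (i : Fin 3) : MM ≃ᵢ MM := sym (e i) (e i) (e i)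

lemma sgn_true : sgn true = 1 := rfl

lemma gi_fix (i : Fin 3) (b : Bool) (p : Fin 3 × Fin 3 × Fin 3)
    (h : cs i p.1 * cs i p.2.1 * cs i p.2.2 = 1) : gi i (pt b p) = pt b p := by
  have := sym_pt true b (i, i, i) p h
  simp only [sgn_true, one_smul] at this
  exact this

lemma S_comm (i j : Fin 3) (v : E3) : S (e i) (S (e j) v) = S (e j) (S (e i) v) := by
  by_cases hij : i = j
  · rw [hij]
  · have h1 : inner ℝ (e i) (e j) = (0 : ℝ) := by
      rw [inner_e, e_apply, if_neg (Ne.symm hij)]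
    have h2 : inner ℝ (e j) (e i) = (0 : ℝ) := by rw [real_inner_comm, h1]
    rw [S_apply (norm_e j), S_apply (norm_e i), S_apply (norm_e i), S_apply (norm_e j)]
    rw [inner_sub_right, inner_sub_right, inner_smul_right, inner_smul_right, h1, h2]
    module

lemma gi_comm (i j : Fin 3) (T : MM) : gi i (gi j T) = gi j (gi i T) := by
  obtain ⟨a, b, c, ha, hb, hc, rfl⟩ := exists_mk T
  unfold gi
  rw [sym_mk, sym_mk, sym_mk, sym_mk]
  simp only [S_comm i j]

lemma sq_coord {a : E3} (ha : ‖a‖ = 1) (h0 : a 0 ^ 2 = 1 ∨ a 0 ^ 2 = 0)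
    (h1 : a 1 ^ 2 = 1 ∨ a 1 ^ 2 = 0) (i : Fin 3) : a i ^ 2 = 1 ∨ a i ^ 2 = 0 := by
  have h := norm_sq_E3 a
  rw [ha, Fin.sum_univ_three] at h
  fin_cases i
  · exact h0
  · exact h1
  · change a 2 ^ 2 = 1 ∨ a 2 ^ 2 = 0
    have h2 := sq_nonneg (a 2)
    rcases h0 with h0 | h0 <;> rcases h1 with h1 | h1 <;> rw [h0, h1] at h
    · exfalso; linarith
    · right; linarith
    · right; linarith
    · left; linarith

/-- common fixed points of the two symmetries are isolated -/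
lemma fix_isolated (b : Bool) (p : Fin 3 × Fin 3 × Fin 3) (y : MM) (hy : dist y (pt b p) < 1)
    (h0 : gi 0 y = y) (h1 : gi 1 y = y) : y = pt b p := by
  obtain ⟨u, v, w, hu, hv, hw, rfl⟩ := exists_mk y
  have c0 := sym_fix_cases (norm_e 0) (norm_e 0) (norm_e 0) hu hv hw h0
  have c1 := sym_fix_cases (norm_e 1) (norm_e 1) (norm_e 1) hu hv hw h1
  simp only [inner_e] at c0 c1
  have k1 := sq_coord hu (by tauto) (by tauto) p.1
  have k2 := sq_coord hv (by tauto) (by tauto) p.2.1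
  have k3 := sq_coord hw (by tauto) (by tauto) p.2.2
  have h3 := (chordal_le (mk u v w hu hv hw) (pt b p)).trans_lt hy
  rw [dist_eq_norm] at h3
  have h2 : ‖inc dd (mk u v w hu hv hw) - inc dd (pt b p)‖ ^ 2 < 1 := by
    have := norm_nonneg (inc dd (mk u v w hu hv hw) - inc dd (pt b p))
    nlinarith
  rw [norm_sub_sq_real, norm_inc, norm_inc] at h2
  unfold pt at h2 ⊢
  rw [inc_mk, inc_mk, inner_tens] at h2
  rw [mk_eq_iff]
  rw [inner_smul_right, real_inner_comm (e p.1), real_inner_comm (e p.2.1), real_inner_comm (e p.2.2),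
    inner_e, inner_e, inner_e] at h2 ⊢
  have h5 : (sgn b * u p.1 * v p.2.1 * w p.2.2) ^ 2 = 1 ∨
      (sgn b * u p.1 * v p.2.1 * w p.2.2) ^ 2 = 0 := by
    have : (sgn b * u p.1 * v p.2.1 * w p.2.2) ^ 2 = u p.1 ^ 2 * v p.2.1 ^ 2 * w p.2.2 ^ 2 := by
      rw [mul_pow, mul_pow, mul_pow, sgn_sq, one_mul]
    rw [this]
    rcases k1 with k1 | k1 <;> rcases k2 with k2 | k2 <;> rcases k3 with k3 | k3 <;>
      rw [k1, k2, k3] <;> norm_num
  rcases h5 with h5 | h5
  · nlinarith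
  · have : sgn b * u p.1 * v p.2.1 * w p.2.2 = 0 := by simpa using h5
    rw [this] at h2
    norm_num at h2

theorem twelve_le : 12 ≤ totalBetti (ZMod 2) MM := by
  obtain ⟨R, G⟩ := geo
  have h := card_fixed_le G [gi 0, gi 1] ?_ ?_ (ptSet T6) ?_ (ε := 1) one_pos ?_
  · rw [card_ptSet] at h
    exact h
  · intro g hg x
    simp only [List.mem_cons, List.not_mem_nil, or_false] at hg
    rcases hg with rfl | rfl <;> exact sym_sym _ _ _ _
  · intro g hg g' hg' x
    simp only [List.mem_cons, List.not_mem_nil, or_false] at hg hg'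
    rcases hg with rfl | rfl <;> rcases hg' with rfl | rfl <;> exact gi_comm _ _ _
  · intro g hg a ha
    obtain ⟨b, p, hp, rfl⟩ := (mem_ptSet _ _).1 ha
    simp only [List.mem_cons, List.not_mem_nil, or_false] at hg
    have k : ∀ p ∈ T6, cs 0 p.1 * cs 0 p.2.1 * cs 0 p.2.2 = 1 ∧
        cs 1 p.1 * cs 1 p.2.1 * cs 1 p.2.2 = 1 := by decide
    rcases hg with rfl | rfl
    · exact gi_fix 0 b p (k p hp).1
    · exact gi_fix 1 b p (k p hp).2
  · intro a ha y hy hg
    obtain ⟨b, p, hp, rfl⟩ := (mem_ptSet _ _).1 ha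
    exact fix_isolated b p y hy (hg (gi 0) (by simp)) (hg (gi 1) (by simp))

end Pool.Agent.W538.TwoNum
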